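import Pool.Agent.Q165.CPMain

/-!
# MP_249059_co: permutations with prescribed positions of a consecutive pattern

`OccursAt π w i` (in `Q165.CP`): the pattern `π` of length `k` has a consecutive occurrence in the
permutation `w` of length `n` starting at the one-based index `i`, `1 ≤ i ≤ n - k + 1`.
`count π I n` is the number `p_π(I, n)` of permutations of length `n` whose set of starting indices
is exactly `I`.

For every pattern of length at least three and every finite set `I` there is a constant
`c = c_{π,I} ≥ 0` with `p_π(I, n) = c p_π(n) (1 + O(θ ^ n))`, where `θ < 1` depends only on `π`;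
in particular the relative error is `O(n ^ (-α))` for every `α`.  The constant is positive
whenever `p_π(I, n)` is positive for infinitely many `n`.

Idea: let `U_1, U_2, ...` be independent and uniform on `[0,1]`.  The probability to avoid `π` from
a window of `k - 1` values on defines a positive transfer operator.  A case analysis shows that
from every window one reaches, with probability comparable to the probability to survive two
steps, a window with all entries away from `0` and `1`, and that any two such windows can be
connected; this gives a contraction of the oscillation of quotients.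
-/

open Filter

namespace Pool.Agent.Results.MP_249059_co.Exponential

open Q165.CP

/-- For every pattern `π` of length `k ≥ 3` there is `θ < 1` such that for every finite set `I`
`p_π(I, n) = c p_π(n) (1 + O(θ ^ n))` with a real number `c ≥ 0`, which is positive if
`p_π(I, n) > 0` for infinitely many `n`; in particular the relative error is at most `n ^ (-α)` for
all large `n`, for every `α`. -/
theorem result (k : ℕ) (hk : 3 ≤ k) (π : Equiv.Perm (Fin k)) :
    ∃ θ : ℝ, 0 < θ ∧ θ < 1 ∧ ∀ I : Finset ℕ, ∃ c : ℝ, 0 ≤ c ∧
      ((∃ᶠ n in atTop, count π I n ≠ 0) → 0 < c) ∧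
      (∃ K : ℝ, ∀ᶠ n in atTop,
        |(count π I n : ℝ) - c * count π ∅ n| ≤ K * θ ^ n * (c * count π ∅ n)) ∧
      (∀ α : ℝ, ∀ᶠ n in atTop,
        |(count π I n : ℝ) - c * count π ∅ n| ≤ (n : ℝ) ^ (-α) * (c * count π ∅ n)) := by
  obtain ⟨θ, h0, h1, h⟩ := main hk π
  refine ⟨θ, h0, h1, fun I => ?_⟩
  obtain ⟨c, K, hc, hK, hpos⟩ := h I
  refine ⟨c, hc, hpos, ⟨K, hK⟩, fun α => ?_⟩
  have h2 : ∀ᶠ n : ℕ in atTop, K * θ ^ n ≤ (n : ℝ) ^ (-α) := by
    have hlog : 0 < -Real.log θ := by
      have := Real.log_neg h0 h1
      linarith
    have ht : Tendsto (fun x : ℝ => x ^ α * Real.exp (-(-Real.log θ) * x)) atTop (nhds 0) :=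
      tendsto_rpow_mul_exp_neg_mul_atTop_nhds_zero α _ hlog
    have ht2 : Tendsto (fun n : ℕ => K * ((n : ℝ) ^ α * Real.exp (-(-Real.log θ) * n))) atTop
        (nhds (K * 0)) := (ht.comp tendsto_natCast_atTop_atTop).const_mul K
    rw [mul_zero] at ht2
    filter_upwards [ht2.eventually (gt_mem_nhds one_pos), eventually_gt_atTop 0] with n hn hn0
    have hn0' : (0 : ℝ) < n := by exact_mod_cast hn0
    have e : Real.exp (-(-Real.log θ) * n) = θ ^ n := by
      rw [neg_neg, mul_comm, Real.exp_nat_mul, Real.exp_log h0]
    rw [e] at hn
    have hp : 0 < (n : ℝ) ^ α := Real.rpow_pos_of_pos hn0' α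
    rw [Real.rpow_neg hn0'.le, ← one_div, le_div_iff₀ hp]
    nlinarith
  filter_upwards [hK, h2] with n h3 h4
  refine h3.trans ?_
  apply mul_le_mul_of_nonneg_right h4
  positivity

end Pool.Agent.Results.MP_249059_co.Exponential
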